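import Pool.Agent.Helper61.Nev.Defs

/-!
# The counting function of the distinct zeros
-/

set_option autoImplicit false

open Metric Real

namespace Pool.Agent.Helper53.DR

open Classical in
/-- The integrated counting function of the zeros of `g` in which every zero is counted once (the
function `N̄(r, 1/g)` of Nevanlinna theory). At `u = 0` the first summand is `log (r * 0⁻¹) = log 0 = 0`. -/
noncomputable def countZeros (g : ℂ → ℂ) (r : ℝ) : ℝ :=
  ∑ᶠ u : ℂ, (if u ∈ closedBall (0 : ℂ) r ∧ 0 < meromorphicOrderAt g u then log (r * ‖u‖⁻¹) else 0)
    + (if 0 < meromorphicOrderAt g 0 then log r else 0)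

end Pool.Agent.Helper53.DR
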