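import Pool.Agent.Helper61.Nev.Main3
import Pool.Agent.Helper53.DR.Defs

/-!
# Counting functions of the distinct zeros
-/

set_option autoImplicit false

open MeasureTheory Real Set Metric Filter Topology MeromorphicOn

namespace Pool.Agent.Helper53.DR

open Pool.Agent.Helper61.Nev

open Classical in
/-- `1` at the zeros of `g`, `0` elsewhere. -/
noncomputable def zb (g : ℂ → ℂ) (u : ℂ) : ℝ := if 0 < meromorphicOrderAt g u then 1 else 0

/-- The counting function of the distinct zeros without the term of the origin. -/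
noncomputable def Nb (g : ℂ → ℂ) (r : ℝ) : ℝ := ∑ᶠ u : ℂ, zb g u * log⁺ (r * ‖u‖⁻¹)

lemma zb_nonneg (g : ℂ → ℂ) (u : ℂ) : 0 ≤ zb g u := by
  unfold zb
  split_ifs <;> norm_num

lemma Nb_nonneg (g : ℂ → ℂ) (r : ℝ) : 0 ≤ Nb g r :=
  finsum_nonneg fun u => mul_nonneg (zb_nonneg g u) posLog_nonneg

lemma Nb_le_countZeros (g : ℂ → ℂ) {r : ℝ} (h0 : 1 / 2 ≤ r) (h1 : r < 1) :
    Nb g r ≤ countZeros g r + log 2 := by
  classical
  have hr0 : 0 < r := by linarith
  have h2 : (∑ᶠ u : ℂ, (if u ∈ closedBall (0 : ℂ) r ∧ 0 < meromorphicOrderAt g u then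
      log (r * ‖u‖⁻¹) else 0)) = Nb g r := by
    unfold Nb
    refine finsum_congr fun u => ?_
    by_cases hu : u ∈ closedBall (0 : ℂ) r
    · rw [posLog_mul_inv_eq_log hu]
      unfold zb
      by_cases hg : 0 < meromorphicOrderAt g u
      · simp [hu, hg]
      · simp [hg]
    · have h3 : log⁺ (r * ‖u‖⁻¹) = 0 := by
        rw [mem_closedBall_zero_iff, not_le] at hu
        exact posLog_mul_inv_eq_zero hr0 hu.le
      rw [h3]
      simp [hu]
  unfold countZeros
  rw [h2]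
  have h3 := abs_log_le h0 h1
  have h4 := neg_abs_le (log r)
  have h5 : 0 ≤ log 2 := log_nonneg (by norm_num)
  split_ifs <;> linarith

lemma Nb_support_finite {g : ℂ → ℂ} (hg : MeromorphicOn g (ball 0 1)) (hz : NZ g) {r : ℝ}
    (h0 : 0 < r) (h1 : r < 1) : (Function.support fun u : ℂ => zb g u * log⁺ (r * ‖u‖⁻¹)).Finite := by
  refine (poles_finite hg h1).subset fun u hu => ?_
  rw [Function.mem_support, mul_ne_zero_iff] at hu
  have h2 : u ∈ closedBall (0 : ℂ) r := by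
    rw [mem_closedBall_zero_iff]
    by_contra h
    exact hu.2 (posLog_mul_inv_eq_zero h0 (not_le.1 h).le)
  have h3 : 0 < meromorphicOrderAt g u := by
    by_contra h
    apply hu.1
    simp [zb, h]
  exact ⟨h2, h3.ne', hz u (closedBall_subset_ball h1 h2)⟩

lemma pm_inv_eq_zero {g : ℂ → ℂ} {u : ℂ} (h : ¬ 0 < meromorphicOrderAt g u) : pm g⁻¹ u = 0 := by
  refine pm_eq_zero ?_
  rw [meromorphicOrderAt_inv]
  cases h5 : meromorphicOrderAt g u with
  | top => simp
  | coe n =>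
    rw [h5] at h
    have h6 : n ≤ 0 := by
      by_contra h7
      exact h (by exact_mod_cast not_le.1 h7)
    exact_mod_cast (by linarith : (0 : ℤ) ≤ -n)

lemma pm_inv_of_pos {g : ℂ → ℂ} {u : ℂ} {n : ℤ} (h : meromorphicOrderAt g u = n) (hn : 0 ≤ n) :
    pm g⁻¹ u = n := by
  unfold pm
  rw [meromorphicOrderAt_inv, h]
  have : (-(n : WithTop ℤ)).untop₀ = -n := by
    rw [WithTop.untop₀_neg, WithTop.untop₀_coe]
  rw [this, negPart_neg, posPart_eq_self.2 hn]

/-- At one point the multiplicities of the `w`-points are compensated by the zeros of the derivative. -/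
lemma sum_pm_le {Ψ : ℂ → ℂ} {u : ℂ} (hΨ : MeromorphicAt Ψ u) (W : Finset ℂ)
    (hE : ∀ w ∈ W, meromorphicOrderAt (fun z => Ψ z - w) u ≠ ⊤) :
    ∑ w ∈ W, (pm (fun z => Ψ z - w)⁻¹ u : ℝ) ≤
      ∑ w ∈ W, zb (fun z => Ψ z - w) u + pm (deriv Ψ)⁻¹ u := by
  classical
  have hp0 : (0 : ℝ) ≤ pm (deriv Ψ)⁻¹ u := by exact_mod_cast pm_nonneg _ _
  by_cases hc : ∃ w ∈ W, 0 < meromorphicOrderAt (fun z => Ψ z - w) u
  · obtain ⟨w, hw, hpos⟩ := hc
    obtain ⟨n, hn⟩ := WithTop.ne_top_iff_exists.1 (hE w hw)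
    have hn0 : 0 < n := by
      rw [← hn] at hpos
      exact_mod_cast hpos
    have hother : ∀ v ∈ W.erase w, (pm (fun z => Ψ z - v)⁻¹ u : ℝ) = 0 := by
      intro v hv
      rw [Finset.mem_erase] at hv
      have hvw : w - v ≠ 0 := sub_ne_zero.2 (Ne.symm hv.1)
      have h1 : (fun z => Ψ z - v) = (fun z => Ψ z - w) + fun _ => w - v := by
        funext z
        simp
      have h2 : meromorphicOrderAt (fun _ : ℂ => w - v) u = 0 :=
        (meromorphicOrderAt_const u (w - v)).trans (if_neg hvw)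
      have h3 : ¬ 0 < meromorphicOrderAt (fun z => Ψ z - v) u := by
        rw [h1, meromorphicOrderAt_add_eq_right_of_lt
          (f₁ := fun z => Ψ z - w) (f₂ := fun _ : ℂ => w - v) (hΨ.sub (MeromorphicAt.const _ _))
          (by rw [h2]; exact hpos), h2]
        exact lt_irrefl _
      rw [pm_inv_eq_zero h3, Int.cast_zero]
    rw [← Finset.add_sum_erase W _ hw, Finset.sum_eq_zero hother, add_zero,
      ← Finset.add_sum_erase W _ hw]
    have h4 : (pm (fun z => Ψ z - w)⁻¹ u : ℝ) = n := by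
      rw [pm_inv_of_pos hn.symm hn0.le]
    have h5 : zb (fun z => Ψ z - w) u = 1 := by
      unfold zb
      simp [hpos]
    have h6 : meromorphicOrderAt (deriv Ψ) u = ((n - 1 : ℤ) : WithTop ℤ) := by
      have h7 : deriv (fun z => Ψ z - w) = deriv Ψ := by
        funext z
        exact deriv_sub_const (f := Ψ) w
      rw [← h7]
      exact meromorphicOrderAt_deriv_eq_sub_one (f := fun z => Ψ z - w) (x := u) (n := n)
        (by exact_mod_cast hn0.ne') hn.symm
    have h8 : (pm (deriv Ψ)⁻¹ u : ℝ) = n - 1 := by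
      rw [pm_inv_of_pos h6 (by linarith)]
      push_cast
      ring
    have h9 : 0 ≤ ∑ v ∈ W.erase w, zb (fun z => Ψ z - v) u :=
      Finset.sum_nonneg fun v _ => zb_nonneg _ _
    rw [h4, h5, h8]
    linarith
  · push Not at hc
    have h1 : ∀ w ∈ W, (pm (fun z => Ψ z - w)⁻¹ u : ℝ) = 0 := by
      intro w hw
      rw [pm_inv_eq_zero (not_lt.2 (hc w hw)), Int.cast_zero]
    rw [Finset.sum_eq_zero h1]
    have h9 : 0 ≤ ∑ v ∈ W, zb (fun z => Ψ z - v) u :=
      Finset.sum_nonneg fun v _ => zb_nonneg _ _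
    linarith

/-- The truncation inequality. -/
lemma sum_Ns_le {Ψ : ℂ → ℂ} (hΨ : MeromorphicOn Ψ (ball 0 1)) (W : Finset ℂ)
    (hE : ∀ w ∈ W, NZ fun z => Ψ z - w) {r : ℝ} (h0 : 0 < r) (h1 : r < 1) :
    ∑ w ∈ W, Ns (fun z => Ψ z - w)⁻¹ r ≤
      ∑ w ∈ W, Nb (fun z => Ψ z - w) r + Ns (deriv Ψ)⁻¹ r := by
  classical
  unfold Ns Nb
  have hf1 : ∀ w ∈ W, (Function.support fun u : ℂ =>
      (pm (fun z => Ψ z - w)⁻¹ u : ℝ) * log⁺ (r * ‖u‖⁻¹)).Finite := fun w _ =>
    Ns_support_finite (mero_sub_const hΨ w).inv h0 h1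
  have hf2 : ∀ w ∈ W, (Function.support fun u : ℂ =>
      zb (fun z => Ψ z - w) u * log⁺ (r * ‖u‖⁻¹)).Finite := fun w hw =>
    Nb_support_finite (mero_sub_const hΨ w) (hE w hw) h0 h1
  have hf3 := Ns_support_finite hΨ.deriv.inv h0 h1
  rw [← finsum_sum_comm W _ hf1, ← finsum_sum_comm W _ hf2]
  have hf1' : (Function.support fun u : ℂ =>
      ∑ w ∈ W, (pm (fun z => Ψ z - w)⁻¹ u : ℝ) * log⁺ (r * ‖u‖⁻¹)).Finite := by
    refine (Set.Finite.biUnion W.finite_toSet fun w hw => hf1 w hw).subset fun u hu => ?_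
    obtain ⟨w, hw, h⟩ := Finset.exists_ne_zero_of_sum_ne_zero hu
    exact mem_biUnion (Finset.mem_coe.2 hw) h
  have hf2' : (Function.support fun u : ℂ =>
      ∑ w ∈ W, zb (fun z => Ψ z - w) u * log⁺ (r * ‖u‖⁻¹)).Finite := by
    refine (Set.Finite.biUnion W.finite_toSet fun w hw => hf2 w hw).subset fun u hu => ?_
    obtain ⟨w, hw, h⟩ := Finset.exists_ne_zero_of_sum_ne_zero hu
    exact mem_biUnion (Finset.mem_coe.2 hw) h
  rw [← finsum_add_distrib hf2' hf3]
  refine finsum_le_finsum' hf1' ((hf2'.union hf3).subset (Function.support_add _ _)) fun u => ?_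
  rw [← Finset.sum_mul, ← Finset.sum_mul, ← add_mul]
  by_cases hu : u ∈ ball (0 : ℂ) 1
  · exact mul_le_mul_of_nonneg_right (sum_pm_le (hΨ u hu) W fun w hw => hE w hw u hu) posLog_nonneg
  · rw [mem_ball_zero_iff, not_lt] at hu
    rw [posLog_mul_inv_eq_zero h0 (h1.le.trans hu)]
    simp

end Pool.Agent.Helper53.DR
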