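import Pool.Agent.Helper53.DR.Main

/-!
# The number of exceptional values
-/

set_option autoImplicit false

open MeasureTheory Real Set Metric Filter Topology MeromorphicOn Asymptotics

namespace Pool.Agent.Helper53.DR

open Pool.Agent.Helper61.Nev

/-- The counting function of finitely many zeros is bounded. -/
lemma countZeros_le_of_finite {g : ℂ → ℂ}
    (hZ : {z : ℂ | z ∈ ball (0 : ℂ) 1 ∧ 0 < meromorphicOrderAt g z}.Finite) :
    ∃ C : ℝ, ∀ r : ℝ, 0 < r → r < 1 → countZeros g r ≤ C := by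
  classical
  set Z := {z : ℂ | z ∈ ball (0 : ℂ) 1 ∧ 0 < meromorphicOrderAt g z} with hZd
  set b : ℂ → ℝ := fun u => if u ∈ Z then 1 else 0 with hb
  have hbf : (Function.support b).Finite := by
    refine hZ.subset fun u hu => ?_
    by_contra h
    apply hu
    simp [hb, h]
  refine ⟨∑ᶠ u, b u * log⁺ (‖u‖⁻¹), fun r h0 h1 => ?_⟩
  unfold countZeros
  have h2 : (if 0 < meromorphicOrderAt g 0 then log r else 0) ≤ 0 := by
    split_ifs
    · exact log_nonpos h0.le h1.le
    · exact le_rfl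
  have h3 : (Function.support fun u : ℂ => (if u ∈ closedBall (0 : ℂ) r ∧
      0 < meromorphicOrderAt g u then log (r * ‖u‖⁻¹) else 0)) ⊆ Z := by
    intro u hu
    rw [Function.mem_support] at hu
    by_cases h : u ∈ closedBall (0 : ℂ) r ∧ 0 < meromorphicOrderAt g u
    · exact ⟨closedBall_subset_ball h1 h.1, h.2⟩
    · rw [if_neg h] at hu
      exact absurd rfl hu
  have h4 : (∑ᶠ u : ℂ, (if u ∈ closedBall (0 : ℂ) r ∧ 0 < meromorphicOrderAt g u then
      log (r * ‖u‖⁻¹) else 0)) ≤ ∑ᶠ u, b u * log⁺ (‖u‖⁻¹) := by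
    refine finsum_le_finsum' (hZ.subset h3)
      (hbf.subset (Function.support_mul_subset_left _ _)) fun u => ?_
    by_cases h : u ∈ closedBall (0 : ℂ) r ∧ 0 < meromorphicOrderAt g u
    · have huZ : u ∈ Z := ⟨closedBall_subset_ball h1 h.1, h.2⟩
      rw [if_pos h]
      have : b u = 1 := by simp [hb, huZ]
      rw [this, one_mul, ← posLog_mul_inv_eq_log h.1]
      refine posLog_le_posLog (by positivity) ?_
      exact mul_le_of_le_one_left (by positivity) h1.le
    · rw [if_neg h]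
      refine mul_nonneg ?_ posLog_nonneg
      rw [hb]
      simp only
      split_ifs <;> norm_num
  linarith

lemma countN_ge {g : ℂ → ℂ} (hg : MeromorphicOn g (ball 0 1)) {r : ℝ} (h0 : 1 / 2 ≤ r)
    (h1 : r < 1) : -(pm g 0 * log 2) ≤ countN g r := by
  have hr0 : 0 < r := by linarith
  rw [countN_eq hg hr0 h1]
  have h2 : (0 : ℝ) ≤ pm g 0 := by exact_mod_cast pm_nonneg g 0
  have h3 := abs_log_le h0 h1
  have h4 := neg_abs_le (log r)
  have h5 := Ns_nonneg g r
  nlinarith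

/-- If all `w ∈ W` are taken finitely often, then `α(f) ≤ l + 1/|W|`. -/
theorem alpha_le {l : ℕ} {a : ℕ → ℂ → ℂ} {f : ℂ → ℂ} (hf : Admissible f)
    (ha : AdmissibleCoeffs l f a) (hΨ : ¬ ConstInDisc (diffPoly l a f)) (W : Finset ℂ)
    (hW : W.Nonempty) (h0W : (0 : ℂ) ∉ W)
    (hfin : ∀ w ∈ W, {z : ℂ | z ∈ ball (0 : ℂ) 1 ∧
      0 < meromorphicOrderAt (fun ζ => diffPoly l a f ζ - w) z}.Finite) :
    alpha f ≤ ((l + 1 / W.card : ℝ) : EReal) := by
  classical
  refine le_of_forall_gt_imp_ge_of_dense fun b hb => ?_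
  rcases eq_or_ne b ⊤ with rfl | hbt
  · exact le_top
  obtain ⟨B, rfl⟩ : ∃ B : ℝ, (B : EReal) = b :=
    ⟨b.toReal, EReal.coe_toReal hbt (ne_bot_of_gt hb)⟩
  have hB : (l + 1 / W.card : ℝ) < B := by exact_mod_cast hb
  set q : ℝ := (W.card : ℝ) with hq
  have hq1 : 1 ≤ q := by
    rw [hq]
    exact_mod_cast hW.card_pos
  have hl0 : (0 : ℝ) ≤ l := Nat.cast_nonneg l
  have hc : q * l + 1 < B * q := by
    have h1 : (l + 1 / q) * q < B * q := mul_lt_mul_of_pos_right hB (by linarith)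
    have h2 : (l + 1 / q) * q = q * l + 1 := by field_simp
    linarith
  have hB0 : 0 < B := by
    have : (0 : ℝ) ≤ 1 / q := by positivity
    linarith
  obtain ⟨ε, hε0, hε1, hεB⟩ : ∃ ε : ℝ, 0 < ε ∧ ε < 1 ∧ q * l + 1 + ε < B * (q - ε) := by
    refine ⟨min (1 / 2) ((B * q - (q * l + 1)) / (2 * (B + 1))), ?_, ?_, ?_⟩
    · exact lt_min (by norm_num) (div_pos (by linarith) (by linarith))
    · exact (min_le_left _ _).trans_lt (by norm_num)
    · have h1 : min (1 / 2) ((B * q - (q * l + 1)) / (2 * (B + 1))) * (B + 1) ≤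
          (B * q - (q * l + 1)) / 2 := by
        calc _ ≤ ((B * q - (q * l + 1)) / (2 * (B + 1))) * (B + 1) := by
              refine mul_le_mul_of_nonneg_right (min_le_right _ _) (by linarith)
          _ = _ := by
              have : B + 1 ≠ 0 := by linarith
              field_simp
      nlinarith
  have hM := main_ineq hf ha hΨ W hW h0W hε0
  have hC : ∀ w : ℂ, ∃ C : ℝ, w ∈ W → ∀ r : ℝ, 0 < r → r < 1 →
      countZeros (fun z => diffPoly l a f z - w) r ≤ C := by
    intro w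
    by_cases hw : w ∈ W
    · obtain ⟨C, hC⟩ := countZeros_le_of_finite (hfin w hw)
      exact ⟨C, fun _ => hC⟩
    · exact ⟨0, fun h => absurd h hw⟩
  choose C hC using hC
  have hΨM := mero_diffPoly hf.mero ha.mero
  set K : ℝ := ∑ w ∈ W, C w + (q - 1) * (pm (diffPoly l a f)⁻¹ 0 * log 2) with hK
  have hev : ∀ᶠ r : ℝ in 𝓝[<] 1, K / (B * (q - ε) - (q * l + 1 + ε)) ≤ Lr r :=
    tendsto_Lr.eventually_ge_atTop _
  unfold alpha
  refine limsup_le_of_le (by isBoundedDefault) ?_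
  filter_upwards [hM, hev, half_lt_eventually] with r hr1 hr2 hr3
  have h0 : 0 < r := by linarith [hr3.1]
  have hL := Lr_pos h0 hr3.2
  have h1 : ∑ w ∈ W, countZeros (fun z => diffPoly l a f z - w) r ≤ ∑ w ∈ W, C w :=
    Finset.sum_le_sum fun w hw => hC w hw r h0 hr3.2
  have h2 : (q - 1) * (-(pm (diffPoly l a f)⁻¹ 0 * log 2)) ≤
      (q - 1) * countN (diffPoly l a f)⁻¹ r :=
    mul_le_mul_of_nonneg_left (countN_ge hΨM.inv hr3.1 hr3.2) (by linarith)
  have h3 : 0 < B * (q - ε) - (q * l + 1 + ε) := by linarith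
  rw [div_le_iff₀ h3] at hr2
  have h4 : (q - ε) * charT f r ≤ (q - ε) * (B * Lr r) := by nlinarith
  have h5 : charT f r ≤ B * Lr r := le_of_mul_le_mul_left h4 (by linarith)
  have h6 : charT f r / Lr r ≤ B := by
    rw [div_le_iff₀ hL]
    exact h5
  exact_mod_cast h6

/-- If `α(f) > l + 1/q`, then fewer than `q` nonzero values are taken finitely often. -/
theorem encard_lt {l : ℕ} {a : ℕ → ℂ → ℂ} {f : ℂ → ℂ} (hf : Admissible f)
    (ha : AdmissibleCoeffs l f a) (hΨ : ¬ ConstInDisc (diffPoly l a f)) {q : ℕ} (hq : 1 ≤ q)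
    (h : ((l + 1 / q : ℝ) : EReal) < alpha f) :
    {w : ℂ | w ≠ 0 ∧ {z : ℂ | z ∈ ball (0 : ℂ) 1 ∧
      0 < meromorphicOrderAt (fun ζ => diffPoly l a f ζ - w) z}.Finite}.encard < q := by
  by_contra hcon
  rw [not_lt] at hcon
  obtain ⟨t, ht, htc⟩ := exists_subset_encard_eq hcon
  have htf : t.Finite := finite_of_encard_eq_coe htc
  have hcard : htf.toFinset.card = q := by
    rw [← ncard_eq_toFinset_card t htf, ncard_def, htc]
    rfl
  have h1 := alpha_le hf ha hΨ htf.toFinset (Finset.card_pos.1 (by omega))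
    (fun h0 => (ht (htf.mem_toFinset.1 h0)).1 rfl) fun w hw => (ht (htf.mem_toFinset.1 hw)).2
  rw [hcard] at h1
  exact absurd h (not_lt.2 h1)

end Pool.Agent.Helper53.DR
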