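import Pool.Agent.Helper53.DR.Point
import Pool.Agent.Helper53.DR.Count

/-!
# The second main theorem for linear differential polynomials
-/

set_option autoImplicit false

open MeasureTheory Real Set Metric Filter Topology MeromorphicOn Asymptotics

namespace Pool.Agent.Helper53.DR

open Pool.Agent.Helper61.Nev

/-- Jensen's formula as a lower bound, with the zeros. -/
lemma jensen_ge {f : ℂ → ℂ} (hf : MeromorphicOn f (ball 0 1)) :
    ∃ C : ℝ, ∀ r : ℝ, 1 / 2 ≤ r → r < 1 →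
      Ns f⁻¹ r - Ns f r - C ≤ circleAverage (fun z => log ‖f z‖) 0 r := by
  refine ⟨|((pm f⁻¹ 0 : ℝ) - pm f 0)| * log 2 + |log ‖meromorphicTrailingCoeffAt f 0‖|,
    fun r hr0 hr1 => ?_⟩
  have h0 : 0 < r := by linarith
  rw [jensen hf h0 hr1]
  have h2 : -(|((pm f⁻¹ 0 : ℝ) - pm f 0)| * log 2) ≤ ((pm f⁻¹ 0 : ℝ) - pm f 0) * log r := by
    refine neg_le_of_abs_le ?_
    rw [abs_mul]
    have := abs_log_le hr0 hr1
    gcongr
  have h3 := neg_abs_le (log ‖meromorphicTrailingCoeffAt f 0‖)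
  linarith

lemma Ts_le_sub_const {Ψ : ℂ → ℂ} (hΨ : MeromorphicOn Ψ (ball 0 1)) (w : ℂ) {r : ℝ} (h0 : 0 < r)
    (h1 : r < 1) : Ts Ψ r ≤ Ts (fun z => Ψ z - w) r + (log⁺ ‖w‖ + log 2) := by
  have h2 : Ψ = (fun z => Ψ z - w) + fun _ => w := by
    funext z
    simp
  have h3 := prox_add_le (mero_sub_const hΨ w) (MeromorphicOn.const (U := ball (0 : ℂ) 1) w) h0 h1
  have h4 := Ns_add_le (mero_sub_const hΨ w) (MeromorphicOn.const (U := ball (0 : ℂ) 1) w) h0 h1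
  rw [← h2] at h3 h4
  have h5 := Ts_const w r
  unfold Ts at *
  linarith

/-- The counting function of the poles of `Ψ`. -/
lemma Ns_diffPoly_le {l : ℕ} {a : ℕ → ℂ → ℂ} {f : ℂ → ℂ} (hf : MeromorphicOn f (ball 0 1))
    (ha : ∀ ν ≤ l, MeromorphicOn (a ν) (ball 0 1))
    (hP : {z : ℂ | z ∈ ball (0 : ℂ) 1 ∧ meromorphicOrderAt f z < 0}.Finite) :
    ∃ C : ℝ, ∀ r : ℝ, 0 < r → r < 1 → Ns (diffPoly l a f) r ≤
      ∑ ν ∈ Finset.range (l + 1), Ns (a ν) r + C := by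
  classical
  have hΨ := mero_diffPoly hf ha
  set S := {z : ℂ | z ∈ ball (0 : ℂ) 1 ∧ meromorphicOrderAt f z < 0} with hS
  set b : ℂ → ℝ := fun u => if u ∈ S then (pm (diffPoly l a f) u : ℝ) else 0 with hb
  have hbf : (Function.support b).Finite := by
    refine hP.subset fun u hu => ?_
    by_contra h
    apply hu
    simp [hb, h]
  have hb0 : ∀ u, 0 ≤ b u := by
    intro u
    rw [hb]
    simp only
    split_ifs
    · exact_mod_cast pm_nonneg _ _
    · exact le_rfl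
  refine ⟨∑ᶠ u, b u * log⁺ (‖u‖⁻¹), fun r h0 h1 => ?_⟩
  have h2 := Ns_le_of (Finset.range (l + 1)) (fun _ => 1) a b (h := diffPoly l a f)
    (fun ν hν => ha ν (by simpa [Nat.lt_succ_iff] using hν)) hΨ hbf (by
      intro u hu
      by_cases huS : u ∈ S
      · have hsum0 : (0 : ℝ) ≤ ∑ i ∈ Finset.range (l + 1), (1 : ℝ) * pm (a i) u :=
          Finset.sum_nonneg fun i _ => by
            rw [one_mul]
            exact_mod_cast pm_nonneg (a i) u
        have : b u = (pm (diffPoly l a f) u : ℝ) := by simp [hb, huS]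
        rw [this]
        linarith
      · have hbu : b u = 0 := by simp [hb, huS]
        rw [hbu, add_zero]
        have hP' : ¬ meromorphicOrderAt f u < 0 := fun h => huS ⟨hu, h⟩
        have hpf : pm f u = 0 := pm_eq_zero (not_lt.1 hP')
        have hE2 : pm (diffPoly l a f) u ≤ ∑ i ∈ Finset.range (l + 1), pm (a i) u := by
          have h1 : diffPoly l a f = ∑ ν ∈ Finset.range (l + 1), (a ν * iteratedDeriv ν f) := by
            funext z
            simp [diffPoly, Finset.sum_apply]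
          rw [h1]
          refine (pm_sum_le fun i hi => ?_).trans (Finset.sum_le_sum fun i hi => ?_)
          · exact ((ha i (by simpa [Nat.lt_succ_iff] using hi)) u hu).mul (mero_iter hf i u hu)
          · refine (pm_mul ((ha i (by simpa [Nat.lt_succ_iff] using hi)) u hu)
              (mero_iter hf i u hu)).trans ?_
            rw [pm_iter hf hu hpf i, add_zero]
        have h6 : ((pm (diffPoly l a f) u : ℤ) : ℝ) ≤
            ((∑ i ∈ Finset.range (l + 1), pm (a i) u : ℤ) : ℝ) := by exact_mod_cast hE2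
        rw [Int.cast_sum] at h6
        simpa using h6) h0 h1
  simp only [one_mul] at h2
  have h3 := finsum_posLog_le b hbf hb0 h0 h1
  linarith

/-- The second main theorem for `Ψ` with the targets `0`, `w ∈ W` and `∞`. -/
theorem smt {Ψ : ℂ → ℂ} (hΨ : MeromorphicOn Ψ (ball 0 1)) (hG : GrowthOK Ψ)
    (hc : ¬ ConstInDisc Ψ) (W : Finset ℂ) (h0W : (0 : ℂ) ∉ W) {ε : ℝ} (hε : 0 < ε) :
    ∃ C : ℝ, ∀ᶠ r : ℝ in 𝓝[<] 1,
      W.card * prox Ψ⁻¹ r + (W.card - 1) * Ns Ψ⁻¹ r ≤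
        (1 + ε) * Lr r + ∑ w ∈ W, Nb (fun z => Ψ z - w) r + Ns Ψ r + C := by
  classical
  have hE : ∀ v : ℂ, NZ fun z => Ψ z - v := fun v => nz_of_not_const hΨ hc v
  have hD := nz_deriv_of_not_const hΨ hc
  obtain ⟨C₁, h1⟩ := mean_le hΨ hG (V := insert 0 W) (Finset.mem_insert_self 0 W)
    (fun v _ => hE v) hD hε
  obtain ⟨C₂, h2⟩ := jensen_ge hΨ.deriv
  obtain ⟨C₃, hC₃, h3⟩ := first_main hΨ
  have h4 : ∀ w : ℂ, ∃ C : ℝ, 0 ≤ C ∧ ∀ r : ℝ, 1 / 2 ≤ r → r < 1 →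
      |Ts (fun z => Ψ z - w) r - Ts (fun z => Ψ z - w)⁻¹ r| ≤ C := fun w =>
    first_main (mero_sub_const hΨ w)
  choose C₄ hC₄ h4 using h4
  set q : ℝ := (W.card : ℝ) with hq
  have hq0 : 0 ≤ q := Nat.cast_nonneg _
  refine ⟨C₁ + C₂ + |q - 1| * C₃ + ∑ w ∈ W, (C₄ w + (log⁺ ‖w‖ + log 2)), ?_⟩
  filter_upwards [h1, half_lt_eventually] with r hr1 hr
  have hr0 : 0 < r := by linarith [hr.1]
  rw [Finset.sum_insert h0W] at hr1
  have e0 : (fun z => Ψ z - 0)⁻¹ = Ψ⁻¹ := by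
    funext z
    simp
  rw [e0] at hr1
  have e2 := h2 r hr.1 hr.2
  have e3 := (abs_le.1 (h3 r hr.1 hr.2))
  have e4 : q * Ts Ψ r - ∑ w ∈ W, Ns (fun z => Ψ z - w)⁻¹ r -
      ∑ w ∈ W, (C₄ w + (log⁺ ‖w‖ + log 2)) ≤ ∑ w ∈ W, prox (fun z => Ψ z - w)⁻¹ r := by
    have h5 : q * Ts Ψ r = ∑ w ∈ W, Ts Ψ r := by
      rw [Finset.sum_const, nsmul_eq_mul]
    rw [h5, ← Finset.sum_sub_distrib, ← Finset.sum_sub_distrib]
    refine Finset.sum_le_sum fun w _ => ?_
    have h6 := (abs_le.1 (h4 w r hr.1 hr.2)).2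
    have h7 := Ts_le_sub_const hΨ w hr0 hr.2
    have h8 : Ts (fun z => Ψ z - w)⁻¹ r =
      prox (fun z => Ψ z - w)⁻¹ r + Ns (fun z => Ψ z - w)⁻¹ r := rfl
    linarith
  have e5 := sum_Ns_le hΨ W (fun w _ => hE w) hr0 hr.2
  have e6 := Ns_deriv_le hΨ hr0 hr.2
  have e7 : Ts Ψ r = prox Ψ r + Ns Ψ r := rfl
  have e8 : Ts Ψ⁻¹ r = prox Ψ⁻¹ r + Ns Ψ⁻¹ r := rfl
  have e9 : (q - 1) * (Ts Ψ⁻¹ r - Ts Ψ r) ≤ |q - 1| * C₃ := by
    refine (le_abs_self _).trans ?_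
    rw [abs_mul]
    refine mul_le_mul_of_nonneg_left ?_ (abs_nonneg _)
    rw [abs_sub_comm]
    exact h3 r hr.1 hr.2
  rw [e8] at e9
  nlinarith

/-- `T(r,f) ≤ m(r,1/Ψ) + l log 1/(1-r) + small`. -/
theorem Ts_le_prox_inv {l : ℕ} {a : ℕ → ℂ → ℂ} {f : ℂ → ℂ} (hf : Admissible f)
    (ha : AdmissibleCoeffs l f a) (hΨ : ¬ ConstInDisc (diffPoly l a f)) {ε : ℝ} (hε : 0 < ε) :
    ∃ C : ℝ, ∀ᶠ r : ℝ in 𝓝[<] 1, Ts f r ≤ prox (diffPoly l a f)⁻¹ r + l * ((1 + ε) * Lr r) +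
      ∑ ν ∈ Finset.range (l + 1), prox (a ν) r + C := by
  classical
  have hfM := hf.mero
  have hG : GrowthOK f := growth_of_alpha hfM hf.alpha_lt
  have hnz : NZ f := nz_of_not_const' hfM hf.nonconst
  have hΨM := mero_diffPoly hfM ha.mero
  have hΨnz : NZ (diffPoly l a f) := nz_of_not_const' hΨM hΨ
  obtain ⟨C₃, h3⟩ := Ns_inv_le hfM hf.zeros
  obtain ⟨C₄, hC₄, h4⟩ := first_main hfM
  have h5 : ∀ j : ℕ, ∃ C : ℝ, 0 ≤ C ∧ ∀ᶠ r : ℝ in 𝓝[<] 1,
      prox (logDeriv (iteratedDeriv j f)) r ≤ (1 + ε) * Lr r + C := fun j =>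
    prox_logDeriv_le (mero_iter hfM j) (growth_iter hfM hG j) hε
  choose C₅ hC₅ h5 using h5
  have h5' : ∀ᶠ r : ℝ in 𝓝[<] 1, ∀ j ∈ Finset.range l,
      prox (logDeriv (iteratedDeriv j f)) r ≤ (1 + ε) * Lr r + C₅ j :=
    (eventually_all_finset _).2 fun j _ => h5 j
  have hq := diffPoly_quot_le (l := l) (a := a) hfM hnz
  refine ⟨C₃ + C₄ + log (l + 1) + ∑ j ∈ Finset.range l, C₅ j, ?_⟩
  filter_upwards [h5', half_lt_eventually] with r hr5 hr
  have h0 : 0 < r := by linarith [hr.1]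
  have e1 : Ts f r ≤ prox f⁻¹ r + C₃ + C₄ := by
    have := (abs_le.1 (h4 r hr.1 hr.2)).2
    have h7 := h3 r h0 hr.2
    have h8 : Ts f⁻¹ r = prox f⁻¹ r + Ns f⁻¹ r := rfl
    linarith
  have hqM : MeromorphicOn (fun z => diffPoly l a f z / f z) (ball 0 1) := hΨM.div hfM
  have e2 : prox f⁻¹ r ≤ prox (fun z => diffPoly l a f z / f z) r + prox (diffPoly l a f)⁻¹ r := by
    have h7 : f⁻¹ =ᶠ[codiscreteWithin (ball (0 : ℂ) 1)]
        (fun z => diffPoly l a f z / f z) * (diffPoly l a f)⁻¹ := by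
      filter_upwards [hΨnz.ae_ne hΨM, hnz.ae_ne hfM] with z hz hz2
      rw [Pi.mul_apply, Pi.inv_apply, Pi.inv_apply]
      field_simp
    rw [prox_congr h7 h0 hr.2]
    exact prox_mul_le hqM hΨM.inv h0 hr.2
  have e3 : prox (fun z => diffPoly l a f z / f z) r ≤
      ∑ ν ∈ Finset.range (l + 1), prox (a ν) r +
        ∑ j ∈ Finset.range l, prox (logDeriv (iteratedDeriv j f)) r + log (l + 1) := by
    have hi1 : ∀ ν ∈ Finset.range (l + 1), CircleIntegrable (fun z => log⁺ ‖a ν z‖) 0 r :=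
      fun ν hν => ci_posLog (ha.mero ν (by simpa [Nat.lt_succ_iff] using hν)) h0 hr.2
    have hi2 : ∀ j ∈ Finset.range l,
        CircleIntegrable (fun z => log⁺ ‖logDeriv (iteratedDeriv j f) z‖) 0 r :=
      fun j _ => ci_posLog (mero_iter hfM j).logDeriv h0 hr.2
    have hs1 := CircleIntegrable.fun_sum _ hi1
    have hs2 := CircleIntegrable.fun_sum _ hi2
    have hs12 : CircleIntegrable (fun z => ∑ ν ∈ Finset.range (l + 1), log⁺ ‖a ν z‖ +
        ∑ j ∈ Finset.range l, log⁺ ‖logDeriv (iteratedDeriv j f) z‖) 0 r := hs1.add hs2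
    have h7 : circleAverage (fun z => (∑ ν ∈ Finset.range (l + 1), log⁺ ‖a ν z‖ +
        ∑ j ∈ Finset.range l, log⁺ ‖logDeriv (iteratedDeriv j f) z‖) + log (l + 1)) 0 r =
        ∑ ν ∈ Finset.range (l + 1), prox (a ν) r +
        ∑ j ∈ Finset.range l, prox (logDeriv (iteratedDeriv j f)) r + log (l + 1) := by
      rw [circleAverage_fun_add hs12 (circleIntegrable_const _ 0 r),
        circleAverage_fun_add hs1 hs2, circleAverage_const, circleAverage_fun_sum hi1,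
        circleAverage_fun_sum hi2]
      rfl
    rw [← h7]
    refine circleAverage_mono_codisc h0.ne' (ci_posLog hqM h0 hr.2)
      (hs12.add (circleIntegrable_const _ 0 r)) ?_
    exact codisc_circle hq h0 hr.2
  have e4 : ∑ j ∈ Finset.range l, prox (logDeriv (iteratedDeriv j f)) r ≤
      l * ((1 + ε) * Lr r) + ∑ j ∈ Finset.range l, C₅ j := by
    refine (Finset.sum_le_sum hr5).trans (le_of_eq ?_)
    rw [Finset.sum_add_distrib, Finset.sum_const, Finset.card_range, nsmul_eq_mul]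
  linarith

/-- The main inequality. -/
theorem main_ineq {l : ℕ} {a : ℕ → ℂ → ℂ} {f : ℂ → ℂ} (hf : Admissible f)
    (ha : AdmissibleCoeffs l f a) (hΨ : ¬ ConstInDisc (diffPoly l a f)) (W : Finset ℂ)
    (hW : W.Nonempty) (h0W : (0 : ℂ) ∉ W) {ε : ℝ} (hε : 0 < ε) :
    ∀ᶠ r : ℝ in 𝓝[<] 1,
      W.card * charT f r + (W.card - 1) * countN (diffPoly l a f)⁻¹ r ≤
        (W.card * l + 1) * Lr r + ∑ w ∈ W, countZeros (fun z => diffPoly l a f z - w) r +
          ε * (charT f r + Lr r) := by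
  classical
  have hfM := hf.mero
  have hG : GrowthOK f := growth_of_alpha hfM hf.alpha_lt
  have haG : ∀ ν ≤ l, GrowthOK (a ν) := fun ν hν =>
    growth_of_small hfM (ha.mero ν hν) hG (ha.small ν hν)
  have hΨM := mero_diffPoly hfM ha.mero
  have hΨG := growth_diffPoly hfM ha.mero hG haG
  set q : ℝ := (W.card : ℝ) with hq
  have hq1 : 1 ≤ q := by
    rw [hq]
    exact_mod_cast hW.card_pos
  have hl0 : (0 : ℝ) ≤ l := Nat.cast_nonneg l
  set η : ℝ := ε / (4 * (q * (l + 1) * 2 + 1)) with hη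
  have hη0 : 0 < η := by positivity
  have hηε : (q * (l + 1) * 2 + 1) * η = ε / 4 := by
    rw [hη]
    field_simp
  obtain ⟨C₁, h1⟩ := smt hΨM hΨG hΨ W h0W hη0
  obtain ⟨C₂, h2⟩ := Ts_le_prox_inv hf ha hΨ hη0
  obtain ⟨C₃, h3⟩ := Ns_diffPoly_le hfM ha.mero hf.poles
  have h6 : ∀ ν : ℕ, ∃ C : ℝ, ν ≤ l → (0 ≤ C ∧ ∀ᶠ r : ℝ in 𝓝[<] 1, Ts (a ν) r ≤ η * Ts f r + C) := by
    intro ν
    by_cases hν : ν ≤ l
    · obtain ⟨C, hC⟩ := small_Ts hfM (ha.mero ν hν) (ha.small ν hν) hη0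
      exact ⟨C, fun _ => hC⟩
    · exact ⟨0, fun h => absurd h hν⟩
  choose C₆ h6 using h6
  have h6' : ∀ᶠ r : ℝ in 𝓝[<] 1, ∀ ν ∈ Finset.range (l + 1),
      Ts (a ν) r ≤ η * Ts f r + C₆ ν :=
    (eventually_all_finset _).2 fun ν hν => (h6 ν (by simpa [Nat.lt_succ_iff] using hν)).2
  set K : ℝ := q * C₂ + C₁ + C₃ + q * (2 * ∑ ν ∈ Finset.range (l + 1), C₆ ν) + q * log 2 +
    ε * (pm f 0 * log 2) with hK
  have hev : ∀ᶠ r : ℝ in 𝓝[<] 1, K / (ε / 4) ≤ Lr r := tendsto_Lr.eventually_ge_atTop _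
  filter_upwards [h1, h2, h6', hev, half_lt_eventually] with r hr1 hr2 hr6 hrK hr
  have h0 : 0 < r := by linarith [hr.1]
  have hL := Lr_nonneg h0.le hr.2
  rw [div_le_iff₀ (by positivity)] at hrK
  have hTs0 := Ts_nonneg f r
  -- sums of the coefficients
  have e5 : ∑ ν ∈ Finset.range (l + 1), prox (a ν) r ≤ ∑ ν ∈ Finset.range (l + 1), Ts (a ν) r := by
    refine Finset.sum_le_sum fun ν _ => ?_
    have := Ns_nonneg (a ν) r
    unfold Ts
    linarith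
  have e6 : ∑ ν ∈ Finset.range (l + 1), Ns (a ν) r ≤ ∑ ν ∈ Finset.range (l + 1), Ts (a ν) r := by
    refine Finset.sum_le_sum fun ν _ => ?_
    have := prox_nonneg (a ν) r
    unfold Ts
    linarith
  have e7 : ∑ ν ∈ Finset.range (l + 1), Ts (a ν) r ≤
      (l + 1) * (η * Ts f r) + ∑ ν ∈ Finset.range (l + 1), C₆ ν := by
    refine (Finset.sum_le_sum hr6).trans (le_of_eq ?_)
    rw [Finset.sum_add_distrib, Finset.sum_const, Finset.card_range, nsmul_eq_mul]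
    push_cast
    ring
  set A : ℝ := ∑ ν ∈ Finset.range (l + 1), Ts (a ν) r with hA
  have hA0 : 0 ≤ A := Finset.sum_nonneg fun ν _ => Ts_nonneg _ _
  have e8 := h3 r h0 hr.2
  -- the counting functions of the distinct zeros
  have e9 : ∑ w ∈ W, Nb (fun z => diffPoly l a f z - w) r ≤
      ∑ w ∈ W, countZeros (fun z => diffPoly l a f z - w) r + q * log 2 := by
    have h7 : q * log 2 = ∑ w ∈ W, log 2 := by
      rw [Finset.sum_const, nsmul_eq_mul]
    rw [h7, ← Finset.sum_add_distrib]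
    exact Finset.sum_le_sum fun w _ => Nb_le_countZeros _ hr.1 hr.2
  have e10 : (q - 1) * countN (diffPoly l a f)⁻¹ r ≤ (q - 1) * Ns (diffPoly l a f)⁻¹ r := by
    refine mul_le_mul_of_nonneg_left ?_ (by linarith)
    rw [countN_eq hΨM.inv h0 hr.2]
    have h7 : (0 : ℝ) ≤ pm (diffPoly l a f)⁻¹ 0 := by exact_mod_cast pm_nonneg _ _
    have h8 := log_nonpos h0.le hr.2.le
    nlinarith
  have e11 : q * charT f r ≤ q * Ts f r :=
    mul_le_mul_of_nonneg_left (charT_le hfM h0 hr.2) (by linarith)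
  have e12 : ε * Ts f r ≤ ε * (charT f r + pm f 0 * log 2) :=
    mul_le_mul_of_nonneg_left (Ts_le_charT hfM hr.1 hr.2) hε.le
  have e13 : q * Ts f r ≤ q * (prox (diffPoly l a f)⁻¹ r + l * ((1 + η) * Lr r) + A + C₂) :=
    mul_le_mul_of_nonneg_left (by linarith) (by linarith)
  have e14 : q * Ts f r + (q - 1) * Ns (diffPoly l a f)⁻¹ r ≤
      (q * l + 1) * Lr r + (q * l + 1) * η * Lr r +
        ∑ w ∈ W, countZeros (fun z => diffPoly l a f z - w) r + q * log 2 + (q + 1) * A +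
        (q * C₂ + C₁ + C₃) := by
    have h7 : q * (l * ((1 + η) * Lr r)) + (1 + η) * Lr r =
        (q * l + 1) * Lr r + (q * l + 1) * η * Lr r := by ring
    nlinarith
  have e15 : (q + 1) * A ≤ (2 * q) * A := mul_le_mul_of_nonneg_right (by linarith) hA0
  have e16 : (2 * q) * A ≤ (2 * q) * ((l + 1) * (η * Ts f r) + ∑ ν ∈ Finset.range (l + 1), C₆ ν) :=
    mul_le_mul_of_nonneg_left e7 (by linarith)
  have e17 : (2 * q) * ((l + 1) * (η * Ts f r)) ≤ ε / 4 * Ts f r := by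
    have h7 : (2 * q) * ((l + 1) * (η * Ts f r)) = (q * (l + 1) * 2) * η * Ts f r := by ring
    rw [h7, ← hηε]
    gcongr
    linarith
  have e18 : (q * l + 1) * η * Lr r ≤ ε / 4 * Lr r := by
    rw [← hηε]
    have h7 : q * l + 1 ≤ q * (l + 1) * 2 + 1 := by nlinarith
    gcongr
  have e19 : (2 * q) * ∑ ν ∈ Finset.range (l + 1), C₆ ν =
      q * (2 * ∑ ν ∈ Finset.range (l + 1), C₆ ν) := by ring
  have e20 : 0 ≤ ε * Ts f r := by positivity
  have e21 : 0 ≤ ε * Lr r := by positivity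
  rw [mul_add] at e16
  nlinarith

end Pool.Agent.Helper53.DR
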