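import Pool.Agent.Helper61.Nev.Main3

/-!
# Second main theorem for `Ψ` with the targets `0`, `w ∈ W` and `∞`: the mean inequality
-/

set_option autoImplicit false

open MeasureTheory Real Set Metric Filter Topology MeromorphicOn

namespace Pool.Agent.Helper53.DR

open Pool.Agent.Helper61.Nev

lemma hasMajorant_zero : HasMajorant fun _ => 0 := by
  intro p hp0 hp1
  refine ⟨0, le_rfl, Eventually.of_forall fun r => ⟨fun _ => 0, circleIntegrable_const 0 0 r,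
    fun _ => le_rfl, Eventually.of_forall fun z => ?_, ?_⟩⟩
  · simp only [zero_rpow hp0.ne', le_refl]
  · rw [circleAverage_const]
    simp

lemma hasMajorant_sum {ι : Type*} (s : Finset ι) (X : ι → ℂ → ℝ) (hX : ∀ i ∈ s, HasMajorant (X i))
    (hX0 : ∀ i ∈ s, ∀ z, 0 ≤ X i z) : HasMajorant fun z => ∑ i ∈ s, X i z := by
  classical
  induction s using Finset.induction_on with
  | empty =>
    simp only [Finset.sum_empty]
    exact hasMajorant_zero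
  | insert i s hi ih =>
    simp only [Finset.sum_insert hi]
    refine (hX i (Finset.mem_insert_self i s)).add
      (ih (fun j hj => hX j (Finset.mem_insert_of_mem hj))
        (fun j hj => hX0 j (Finset.mem_insert_of_mem hj)))
      (hX0 i (Finset.mem_insert_self i s)) fun z => ?_
    exact Finset.sum_nonneg fun j hj => hX0 j (Finset.mem_insert_of_mem hj) z

/-- A separation constant of a finite set. -/
lemma exists_sep (V : Finset ℂ) : ∃ δ : ℝ, 0 < δ ∧ δ ≤ 1 ∧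
    ∀ v ∈ V, ∀ v' ∈ V, v ≠ v' → 2 * δ ≤ ‖v - v'‖ := by
  classical
  set P : Finset (ℂ × ℂ) := (V ×ˢ V).filter fun p => p.1 ≠ p.2 with hP
  rcases P.eq_empty_or_nonempty with h | h
  · refine ⟨1, one_pos, le_rfl, fun v hv v' hv' hne => ?_⟩
    have : (v, v') ∈ P := by
      rw [hP, Finset.mem_filter, Finset.mem_product]
      exact ⟨⟨hv, hv'⟩, hne⟩
    rw [h] at this
    simp at this
  · obtain ⟨p, hp, hmin⟩ := P.exists_min_image (fun p => ‖p.1 - p.2‖) h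
    have hp0 : 0 < ‖p.1 - p.2‖ := by
      rw [hP, Finset.mem_filter] at hp
      exact norm_pos_iff.2 (sub_ne_zero.2 hp.2)
    refine ⟨min 1 (‖p.1 - p.2‖ / 2), lt_min one_pos (by positivity), min_le_left _ _,
      fun v hv v' hv' hne => ?_⟩
    have h1 : (v, v') ∈ P := by
      rw [hP, Finset.mem_filter, Finset.mem_product]
      exact ⟨⟨hv, hv'⟩, hne⟩
    have h2 := hmin (v, v') h1
    have h3 := min_le_right 1 (‖p.1 - p.2‖ / 2)
    simp only at h2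
    linarith

/-- The pointwise inequality. -/
lemma point_le {V : Finset ℂ} (h0 : (0 : ℂ) ∈ V) {δ : ℝ} (hδ : 0 < δ) (hδ1 : δ ≤ 1)
    (hsep : ∀ v ∈ V, ∀ v' ∈ V, v ≠ v' → 2 * δ ≤ ‖v - v'‖) {x d : ℂ} (hx : ∀ v ∈ V, x - v ≠ 0)
    (hd : d ≠ 0) :
    log ‖d‖ + ∑ v ∈ V, log⁺ ‖(x - v)⁻¹‖ ≤
      log⁺ (∑ v ∈ V, ‖d / (x - v)‖) + (log⁺ ‖x‖ + V.card * log δ⁻¹) := by
  classical
  set S : ℝ := ∑ v ∈ V, ‖d / (x - v)‖ with hS
  have hlδ : 0 ≤ log δ⁻¹ := log_nonneg (by rw [one_le_inv₀ hδ]; exact hδ1)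
  have hpl : 0 ≤ log⁺ ‖x‖ := posLog_nonneg
  have hd0 : 0 < ‖d‖ := norm_pos_iff.2 hd
  have hterm : ∀ v ∈ V, ‖d / (x - v)‖ ≤ S := fun v hv =>
    Finset.single_le_sum (f := fun v => ‖d / (x - v)‖) (fun i _ => norm_nonneg _) hv
  have hlogS : ∀ v ∈ V, log ‖d‖ - log ‖x - v‖ ≤ log⁺ S := by
    intro v hv
    have h1 : 0 < ‖x - v‖ := norm_pos_iff.2 (hx v hv)
    have h2 : log ‖d / (x - v)‖ = log ‖d‖ - log ‖x - v‖ := by
      rw [norm_div, log_div hd0.ne' h1.ne']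
    rw [← h2]
    refine le_trans (le_max_right 0 _) ?_
    exact posLog_le_posLog (norm_nonneg _) (hterm v hv)
  have hfar : ∀ v ∈ V, δ ≤ ‖x - v‖ → log⁺ ‖(x - v)⁻¹‖ ≤ log δ⁻¹ := by
    intro v hv h
    have h1 : ‖(x - v)⁻¹‖ ≤ δ⁻¹ := by
      rw [norm_inv]
      exact inv_anti₀ hδ h
    refine (posLog_le_posLog (norm_nonneg _) h1).trans ?_
    rw [posLog_eq_log (by rw [abs_of_pos (by positivity), one_le_inv₀ hδ]; exact hδ1)]
  by_cases hc : ∃ v ∈ V, ‖x - v‖ < δ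
  · obtain ⟨v, hv, hvx⟩ := hc
    have h1 : 0 < ‖x - v‖ := norm_pos_iff.2 (hx v hv)
    rw [← Finset.add_sum_erase V _ hv]
    have h2 : log⁺ ‖(x - v)⁻¹‖ = -log ‖x - v‖ := by
      rw [posLog_eq_log, norm_inv, log_inv]
      rw [abs_norm, norm_inv, one_le_inv₀ h1]
      linarith
    have h3 : ∑ u ∈ V.erase v, log⁺ ‖(x - u)⁻¹‖ ≤ ∑ u ∈ V.erase v, log δ⁻¹ := by
      refine Finset.sum_le_sum fun u hu => ?_
      rw [Finset.mem_erase] at hu
      refine hfar u hu.2 ?_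
      have h4 := hsep u hu.2 v hv hu.1
      have h5 : ‖u - v‖ ≤ ‖x - v‖ + ‖x - u‖ := by
        have : u - v = (x - v) - (x - u) := by ring
        rw [this]
        exact norm_sub_le _ _
      linarith
    rw [Finset.sum_const, nsmul_eq_mul] at h3
    have h4 : ((V.erase v).card : ℝ) ≤ V.card := by exact_mod_cast Finset.card_le_card (Finset.erase_subset v V)
    have h5 := mul_le_mul_of_nonneg_right h4 hlδ
    have h6 := hlogS v hv
    linarith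
  · push Not at hc
    have h3 : ∑ u ∈ V, log⁺ ‖(x - u)⁻¹‖ ≤ ∑ u ∈ V, log δ⁻¹ :=
      Finset.sum_le_sum fun u hu => hfar u hu (hc u hu)
    rw [Finset.sum_const, nsmul_eq_mul] at h3
    have h6 := hlogS 0 h0
    rw [sub_zero] at h6
    have h7 : log ‖x‖ ≤ log⁺ ‖x‖ := le_max_right _ _
    linarith

/-- The inequality for the means. -/
theorem mean_le {Ψ : ℂ → ℂ} (hΨ : MeromorphicOn Ψ (ball 0 1)) (hG : GrowthOK Ψ) {V : Finset ℂ}
    (h0 : (0 : ℂ) ∈ V) (hE : ∀ v ∈ V, NZ fun z => Ψ z - v) (hD : NZ (deriv Ψ)) {ε : ℝ}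
    (hε : 0 < ε) : ∃ C : ℝ, ∀ᶠ r : ℝ in 𝓝[<] 1,
      circleAverage (fun z => log ‖deriv Ψ z‖) 0 r + ∑ v ∈ V, prox (fun z => Ψ z - v)⁻¹ r ≤
        (1 + ε) * Lr r + prox Ψ r + C := by
  classical
  obtain ⟨δ, hδ, hδ1, hsep⟩ := exists_sep V
  have hmaj : HasMajorant fun z => ∑ v ∈ V, ‖logDeriv (fun ζ => Ψ ζ - v) z‖ :=
    hasMajorant_sum V _ (fun v hv => hasMajorant_logDeriv (mero_sub_const hΨ v) (hE v hv)
      (growth_sub_const hΨ hG v)) fun v _ z => norm_nonneg _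
  obtain ⟨C, hC⟩ := hmaj.avg (fun z => Finset.sum_nonneg fun v _ => norm_nonneg _) hε
  refine ⟨C + V.card * log δ⁻¹, ?_⟩
  have hpt : ∀ᶠ z in codiscreteWithin (ball (0 : ℂ) 1),
      log ‖deriv Ψ z‖ + ∑ v ∈ V, log⁺ ‖(fun ζ => Ψ ζ - v)⁻¹ z‖ ≤
        log⁺ (∑ v ∈ V, ‖logDeriv (fun ζ => Ψ ζ - v) z‖) + (log⁺ ‖Ψ z‖ + V.card * log δ⁻¹) := by
    have h1 : ∀ᶠ z in codiscreteWithin (ball (0 : ℂ) 1), ∀ v ∈ V, Ψ z - v ≠ 0 :=
      (eventually_all_finset _).2 fun v hv => (hE v hv).ae_ne (mero_sub_const hΨ v)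
    filter_upwards [h1, hD.ae_ne hΨ.deriv] with z hz hz2
    have h2 := point_le h0 hδ hδ1 hsep hz hz2
    have h3 : ∀ v ∈ V, ‖logDeriv (fun ζ => Ψ ζ - v) z‖ = ‖deriv Ψ z / (Ψ z - v)‖ := by
      intro v _
      rw [logDeriv_apply, deriv_sub_const]
    rw [Finset.sum_congr rfl h3]
    exact h2
  filter_upwards [hC, half_lt_eventually] with r hr hr2
  have hr0 : 0 < r := by linarith [hr2.1]
  have hi1 := ci_log hΨ.deriv hr0 hr2.2
  have hi2 : ∀ v ∈ V, CircleIntegrable (fun z => log⁺ ‖(fun ζ => Ψ ζ - v)⁻¹ z‖) 0 r :=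
    fun v _ => ci_posLog (mero_sub_const hΨ v).inv hr0 hr2.2
  have hi3 : CircleIntegrable (fun z => ∑ v ∈ V, log⁺ ‖(fun ζ => Ψ ζ - v)⁻¹ z‖) 0 r :=
    CircleIntegrable.fun_sum _ hi2
  have hi4 := ci_posLog hΨ hr0 hr2.2
  have hi5 : CircleIntegrable (fun z => log⁺ ‖Ψ z‖ + V.card * log δ⁻¹) 0 r :=
    hi4.add (circleIntegrable_const _ 0 r)
  have h4 := hr (fun z => log ‖deriv Ψ z‖ + ∑ v ∈ V, log⁺ ‖(fun ζ => Ψ ζ - v)⁻¹ z‖)
    (fun z => log⁺ ‖Ψ z‖ + V.card * log δ⁻¹) (hi1.add hi3) hi5 (codisc_circle hpt hr0 hr2.2)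
  rw [circleAverage_fun_add hi1 hi3, circleAverage_fun_sum hi2,
    circleAverage_fun_add hi4 (circleIntegrable_const _ 0 r), circleAverage_const] at h4
  unfold prox
  linarith

end Pool.Agent.Helper53.DR
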